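import Pool.Agent.Lib.MP_0393a7_an.Main

/-!
# Additivity of Rokhlin entropy for distal extensions

The definitions (Shannon entropy, Rokhlin entropy, outer and relative Rokhlin entropy, factor maps,
distal extensions) are in `Pool.Agent.Lib.MP_0393a7_an.Defs`.
-/

open MeasureTheory

namespace Pool.Agent.Results.MP_0393a7_an.DistalExtensions

open Pool.Agent.Lib.MP_0393a7_an

/-- Let the countable group `G` act ergodically by measure preserving maps on the nonatomic
standard probability space `(X, μ)`, and let `X` be distal over the factor `Y` (in the sense of a
separating sieve, or of a countable tower of isometric extensions). Then the relative Rokhlin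
entropy of `X` given `Y` is `0`, and the Rokhlin entropy of `X` is the sum of the outer Rokhlin
entropy of `Y` and the relative Rokhlin entropy given `Y`. -/
theorem result {G X Y : Type} [Group G] [Countable G] [MeasurableSpace X] [StandardBorelSpace X]
    [MulAction G X] [MeasurableConstSMul G X] (μ : Measure X) [IsProbabilityMeasure μ]
    (hna : ∀ x, μ {x} = 0) [ErgodicSMul G X μ] [MeasurableSpace Y] [StandardBorelSpace Y]
    [MulAction G Y] [MeasurableConstSMul G Y] (π : X → Y) (hπ : IsFactorMap G μ π)
    (hd : DistalOver G μ π (id : X → X) ∨ IsometricTower G μ π (id : X → X)) :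
    relRokhlin G μ (MeasurableSpace.comap π inferInstance) = 0 ∧
      rokhlin G μ = outerRokhlin G μ (MeasurableSpace.comap π inferInstance) +
        relRokhlin G μ (MeasurableSpace.comap π inferInstance) := by
  have hd' : DistalOver G μ π (id : X → X) := hd.elim id fun h => distal_of_tower μ h
  have h0 := rel_eq_zero (G := G) μ hna hπ.1 hd'
  refine ⟨h0, ?_⟩
  rw [h0, add_zero, rokhlin_eq_outer]
  refine outer_eq (G := G) μ hna hπ.1 measurable_id hd' (LeMod.of_le ?_)
  rw [MeasurableSpace.comap_id]
  exact hπ.1.comap_le

end Pool.Agent.Results.MP_0393a7_an.DistalExtensions
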