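import Pool.Agent.Lib.MP_0393a7_an.Main

/-!
# Rokhlin entropy and distal extensions of factors

The definitions (Shannon entropy, Rokhlin entropy, outer and relative Rokhlin entropy, factor maps,
distal extensions) are in `Pool.Agent.Lib.MP_0393a7_an.Defs`.
-/

open MeasureTheory

namespace Pool.Agent.Results.MP_0393a7_an.DistalFactors

open Pool.Agent.Lib.MP_0393a7_an

/-- Let the countable group `G` act ergodically by measure preserving maps on the nonatomic
standard probability space `(X, μ)`, let `Y` and `Z` be factors of `X` with `Y` contained in `Z`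
(modulo null sets), and let `Z` be distal over `Y` (in the sense of a separating sieve, or of a
countable tower of isometric extensions). Then the outer Rokhlin entropies of `Y` and `Z` in `X`
agree, and if `outer + relative ≤ Rokhlin entropy of X` holds for `Y`, then it holds for `Z`. If
`Y` is a point, then the outer Rokhlin entropy of `Z` is `0`, and this inequality holds for `Z`. -/
theorem result {G X Y Z : Type} [Group G] [Countable G] [MeasurableSpace X] [StandardBorelSpace X]
    [MulAction G X] [MeasurableConstSMul G X] (μ : Measure X) [IsProbabilityMeasure μ]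
    (hna : ∀ x, μ {x} = 0) [ErgodicSMul G X μ] [MeasurableSpace Y] [StandardBorelSpace Y]
    [MulAction G Y] [MeasurableConstSMul G Y] [MeasurableSpace Z] [StandardBorelSpace Z]
    [MulAction G Z] [MeasurableConstSMul G Z] (π : X → Y) (ρ : X → Z) (hπ : IsFactorMap G μ π)
    (hρ : IsFactorMap G μ ρ)
    (hYZ : LeMod μ (MeasurableSpace.comap π inferInstance) (MeasurableSpace.comap ρ inferInstance))
    (hd : DistalOver G μ π ρ ∨ IsometricTower G μ π ρ) :
    (outerRokhlin G μ (MeasurableSpace.comap ρ inferInstance) =
      outerRokhlin G μ (MeasurableSpace.comap π inferInstance)) ∧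
    (outerRokhlin G μ (MeasurableSpace.comap π inferInstance) +
        relRokhlin G μ (MeasurableSpace.comap π inferInstance) ≤ rokhlin G μ →
      outerRokhlin G μ (MeasurableSpace.comap ρ inferInstance) +
        relRokhlin G μ (MeasurableSpace.comap ρ inferInstance) ≤ rokhlin G μ) ∧
    (Subsingleton Y →
      outerRokhlin G μ (MeasurableSpace.comap ρ inferInstance) = 0 ∧
      outerRokhlin G μ (MeasurableSpace.comap ρ inferInstance) +
        relRokhlin G μ (MeasurableSpace.comap ρ inferInstance) ≤ rokhlin G μ) := by
  have hd' : DistalOver G μ π ρ := hd.elim id fun h => distal_of_tower μ h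
  have h1 := outer_eq (G := G) μ hna hπ.1 hρ.1 hd' hYZ
  refine ⟨h1, fun h => ?_, fun hY => ?_⟩
  · rw [h1]
    refine le_trans ?_ h
    gcongr
    exact rel_mono μ hπ.1.comap_le hρ.1.comap_le hYZ
  · have hd2 : DistalOver G μ (fun _ : X => PUnit.unit.{1}) ρ := by
      obtain ⟨A, X₀, hA, hX₀, hX₀', hsep⟩ := hd'
      exact ⟨A, X₀, hA, hX₀, hX₀', fun x hx x' hx' _ hn =>
        hsep x hx x' hx' (Subsingleton.elim _ _) hn⟩
    have h2 := outer_eq_zero (G := G) μ hna hρ.1 hd2
    refine ⟨h2, ?_⟩
    rw [h2, zero_add]
    exact rel_le_rokhlin μ hρ.1.comap_le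

end Pool.Agent.Results.MP_0393a7_an.DistalFactors
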